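import Mathlib

set_option autoImplicit false

open Set Filter Topology Function

namespace Pool.Agent.H.MP_7279d0

/-- the space of free ultrafilters on the naturals -/
abbrev W : Type := {u : Ultrafilter ℕ // (u : Filter ℕ) ≤ cofinite}

lemma clo (A : Set ℕ) : IsClopen {u : W | A ∈ u.1} :=
  IsClopen.preimage ⟨ultrafilter_isClosed_basic A, ultrafilter_isOpen_basic A⟩
    continuous_subtype_val

instance : CompactSpace W := isCompact_iff_compactSpace.1 (IsClosed.isCompact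
    (s := {u : Ultrafilter ℕ | (u : Filter ℕ) ≤ cofinite}) (by
  simp only [Filter.le_def, ofPred_forall]
  exact isClosed_iInter fun A => isClosed_iInter fun _ => ultrafilter_isClosed_basic A))

instance : Nonempty W := ⟨⟨_, hyperfilter_le_cofinite⟩⟩

lemma bas (x : W) : (𝓝 x).HasBasis (· ∈ x.1) fun A => {u : W | A ∈ u.1} :=
  ⟨fun t => ⟨fun h => by
    obtain ⟨_, ⟨⟨A, rfl⟩, a⟩, b⟩ := ((ultrafilterBasis_is_basis.nhds_hasBasis (a := x.1)).comap
      Subtype.val).mem_iff.1 (nhds_subtype _ x ▸ h)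
    exact ⟨A, a, b⟩, fun ⟨A, a, b⟩ => mem_of_superset ((clo A).2.mem_nhds a) b⟩⟩

lemma two {A : Set ℕ} (h : A.Infinite) (z : Ultrafilter ℕ) : ∃ u : W, A ∈ u.1 ∧ u.1 ≠ z := by
  have k : ∀ i : ℕ, ∃ u : W, A ∈ u.1 ∧ (range fun n => (h.natEmbedding A (2 * n + i)).1) ∈ u.1 :=
    fun i => ⟨⟨(hyperfilter ℕ).map fun n => (h.natEmbedding A (2 * n + i)).1, (map_mono
      hyperfilter_le_cofinite).trans (Injective.tendsto_cofinite fun a b e => by
        have := (h.natEmbedding A).injective (Subtype.ext e); omega)⟩,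
          Ultrafilter.mem_map.2 (univ_mem' fun n => (h.natEmbedding A _).2), range_mem_map⟩
  obtain ⟨u, u1, u2⟩ := k 0
  obtain ⟨v, v1, v2⟩ := k 1
  by_contra! e
  obtain ⟨_, ⟨a, rfl⟩, b, c⟩ := z.nonempty_of_mem (inter_mem (e u u1 ▸ u2) (e v v1 ▸ v2))
  have := (h.natEmbedding A).injective (Subtype.ext c)
  omega

lemma inf {A : Set ℕ} {u : W} (h : A ∈ u.1) : A.Infinite := fun e =>
  Ultrafilter.compl_mem_iff_notMem.1 (u.2 e.compl_mem_cofinite) h

lemma two' {U : Set W} (h : IsOpen U) {x : W} (e : x ∈ U) (z : W) : ∃ u ∈ U, u ≠ z := by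
  obtain ⟨A, a, b⟩ := (bas x).mem_iff.1 (h.mem_nhds e)
  obtain ⟨u, u1, u2⟩ := two (inf a) z.1
  exact ⟨u, b u1, fun k => u2 (k ▸ rfl)⟩

lemma sep {u v : Ultrafilter ℕ} (h : u ≠ v) : ∃ A ∈ u, A ∉ v := by
  by_contra! e
  exact h (Ultrafilter.eq_of_le (f := v) e).symm

lemma lc (B : Set ℕ) (f : C(W, W)) : ∀ᶠ g : C(W, W) in 𝓝 f, ∀ t, B ∈ (g t).1 ↔ B ∈ (f t).1 := by
  filter_upwards [f.eventually_mapsTo ((clo B).1.preimage f.2).isCompact (clo B).2 fun _ => id,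
    f.eventually_mapsTo ((clo B).compl.1.preimage f.2).isCompact (clo B).compl.2 fun _ => id]
    with g a b t using ⟨fun h => not_not.1 fun k => b k h, fun h => a h⟩

theorem isol {K : Type*} [TopologicalSpace K] [CompactSpace K] {G : K → C(W, W)} (hG : Continuous G)
    {p : K} (i : Injective (G p)) : ∀ᶠ x in 𝓝 p, G x = G p := by
  by_contra h
  have := frequently_iff_neBot.1 (not_eventually.1 h)
  let V := Ultrafilter.of (𝓝 p ⊓ 𝓟 {x | ¬G x = G p})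
  have v1 : ∀ B, ∀ᶠ x in V, ∀ t, B ∈ (G x t).1 ↔ B ∈ (G p t).1 := fun B =>
    ((Ultrafilter.of_le _).trans inf_le_left) (hG.tendsto p (lc B _))
  have v2 : ∀ᶠ x in V, ¬G x = G p := ((Ultrafilter.of_le _).trans inf_le_right) (mem_principal_self _)
  choose! t ht using fun x (h : ¬G x = G p) => not_forall.1 (mt ContinuousMap.ext h)
  obtain ⟨z, -, hz⟩ := isCompact_univ.ultrafilter_le_nhds (V.map fun x => G p (t x)) (by simp)
  have : ∀ s : {s : Set ℕ × Set K // s.1 ∈ z.1 ∧ s.2 ∈ V}, ∃ (x : K) (t : W) (c d : Set ℕ),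
      x ∈ s.1.2 ∧ c ∈ (G p t).1 ∧ c ⊆ s.1.1 ∧ d ⊆ s.1.1 ∧ Disjoint c d ∧ c ∪ d ∉ z.1 ∧
        (G x t = z ∨ d ∈ (G x t).1) := by
    rintro ⟨⟨R, N⟩, r, n⟩
    obtain ⟨x, ⟨x1, x2⟩, x3, x4⟩ := ((v2.and (v1 R)).and (Eventually.and n
      (show ∀ᶠ x in V, R ∈ (G p (t x)).1 from hz ((clo R).2.mem_nhds r)))).exists
    obtain ⟨y, hy⟩ : ∃ y, ∀ t, G p t = z → t = y := by
      by_cases e : ∃ y, G p y = z
      · exact e.imp fun y e t a => i (a.trans e.symm)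
      · exact ⟨z, fun t a => (e ⟨t, a⟩).elim⟩
    obtain ⟨s, ⟨s1, s2⟩, s3⟩ := two' (((clo R).2.preimage (G p).2).inter (isOpen_ne_fun (G x).2
      (G p).2)) ⟨x4, ht x x1⟩ y
    obtain ⟨A, a1, a2⟩ := sep (mt Subtype.ext (mt (hy s) s3))
    obtain ⟨B, b1, b2⟩ := sep (mt Subtype.ext (Ne.symm s2))
    by_cases e : G x s = z
    · exact ⟨x, s, R ∩ A, ∅, x3, inter_mem s1 a1, inter_subset_left, empty_subset _,
        disjoint_empty _, fun k => a2 (mem_of_superset k (by simp)), .inl e⟩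
    · obtain ⟨D, d1, d2⟩ := sep (mt Subtype.ext e)
      exact ⟨x, s, R ∩ A ∩ B, R ∩ D ∩ Bᶜ, x3, inter_mem (inter_mem s1 a1) b1, fun _ h => h.1.1,
        fun _ h => h.1.1, disjoint_left.2 fun _ a b => b.2 a.2, fun k => (Ultrafilter.union_mem_iff.1
          k).elim (fun k => a2 (mem_of_superset k fun _ h => h.1.2))
            fun k => d2 (mem_of_superset k fun _ h => h.1.2), .inr (inter_mem (inter_mem
              ((x2 s).2 s1) d1) (Ultrafilter.compl_mem_iff_notMem.2 b2))⟩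
  choose x t c d h1 h2 h3 h4 h5 h6 h7 using this
  let s : ℕ → {s : Set ℕ × Set K // s.1 ∈ z.1 ∧ s.2 ∈ V} := fun n => Nat.rec
    ⟨(univ, univ), univ_mem, univ_mem⟩ (fun _ s => ⟨(s.1.1 ∩ (c s ∪ d s)ᶜ, s.1.2 ∩
      {x | ∀ t, c s ∈ (G x t).1 ↔ c s ∈ (G p t).1}), inter_mem s.2.1
        (Ultrafilter.compl_mem_iff_notMem.2 (h6 s)), inter_mem s.2.2 (v1 _)⟩) n
  have m : Antitone fun n => (s n).1 := antitone_nat_of_succ_le fun n =>
    ⟨inter_subset_left, inter_subset_left⟩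
  have dj : ∀ {n k a}, n < k → a ∈ c (s n) ∪ d (s n) → a ∉ c (s k) ∪ d (s k) := fun e a b =>
    ((m e).1 (b.elim (h3 _ ·) (h4 _ ·))).2 a
  obtain ⟨j, hj⟩ : ∃ j, (⋃ n, c (s (2 * n + j))) ∉ z.1 := by
    by_contra! e
    obtain ⟨a, a1, a2⟩ := z.1.nonempty_of_mem (inter_mem (e 0) (e 1))
    obtain ⟨n, hn⟩ := mem_iUnion.1 a1
    obtain ⟨k, hk⟩ := mem_iUnion.1 a2
    rcases lt_trichotomy (2 * n + 0) (2 * k + 1) with e | e | e
    exacts [dj e (.inl hn) (.inl hk), by omega, dj e (.inl hk) (.inl hn)]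
  have f := ((IsLocallyConstant.iff_eventually_eq fun x => {t | (⋃ n, c (s (2 * n + j))) ∈
    (G x t).1}).2 fun y => ((hG.tendsto y).eventually (lc _ _)).mono fun _ h => Set.ext h).range_finite
  refine infinite_of_injective_forall_mem (Function.Injective.of_lt_imp_ne fun n k e a => ?_)
    (fun n => mem_range_self (x (s (2 * n + j)))) f
  have b : (⋃ n, c (s (2 * n + j))) ∈ (G (x (s (2 * n + j))) (t (s (2 * n + j)))).1 :=
    (Set.ext_iff.1 a _).2 (mem_of_superset ((((m (show 2 * n + j + 1 ≤ 2 * k + j by omega)).2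
      (h1 _)).2 _).2 (h2 _)) (subset_iUnion (fun n => c (s (2 * n + j))) n))
  rcases h7 (s (2 * n + j)) with e | e
  · exact hj (e ▸ b)
  · obtain ⟨a, a1, a2⟩ := Ultrafilter.nonempty_of_mem (inter_mem b e)
    obtain ⟨l, hl⟩ := mem_iUnion.1 a1
    rcases lt_trichotomy l n with e | rfl | e
    exacts [dj (by omega) (.inl hl) (.inr a2), disjoint_left.1 (h5 _) hl a2,
      dj (by omega) (.inr a2) (.inl hl)]

/-- a discrete sequence -/
noncomputable def d (n : ℕ) : W := ⟨(hyperfilter ℕ).map (Nat.pair n), (map_mono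
  hyperfilter_le_cofinite).trans (Injective.tendsto_cofinite fun _ _ e => (Nat.pair_eq_pair.1 e).2)⟩

/-- its limits -/
noncomputable def xl (q : Ultrafilter ℕ) : W := ⟨q.bind fun n => (d n).1, fun _ h =>
  mem_bind'.2 (univ_mem' fun n => (d n).2 h)⟩

lemma mxl {q : Ultrafilter ℕ} {B : Set ℕ} : B ∈ (xl q).1 ↔ ∀ᶠ n in q, B ∈ (d n).1 := mem_bind'

lemma txl (q : Ultrafilter ℕ) : Tendsto d q (𝓝 (xl q)) := (bas _).tendsto_right_iff.2 fun _ => mxl.1

lemma md {n : ℕ} {B : Set ℕ} : (fun m => m.unpair.1) ⁻¹' B ∈ (d n).1 ↔ n ∈ B := by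
  change {m | (Nat.pair n m).unpair.1 ∈ B} ∈ hyperfilter ℕ ↔ _
  by_cases h : n ∈ B <;> simp [h, ← Ultrafilter.mem_coe]

lemma pxl {q : Ultrafilter ℕ} {B : Set ℕ} : (fun m => m.unpair.1) ⁻¹' B ∈ (xl q).1 ↔ B ∈ q := by
  simp only [mxl, md]; rfl

lemma nxl (q : W) (n : ℕ) : (fun m => m.unpair.1) ⁻¹' {n} ∉ (xl q.1).1 := fun h =>
  inf (pxl.1 h) (finite_singleton n)

end Pool.Agent.H.MP_7279d0
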