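import Mathlib

set_option autoImplicit false

open Cardinal Set Filter

namespace Pool.Agent.H.MP_7279d0

/-- recursion of length continuum keeping an independence predicate -/
theorem kunen {α : Type} (Ind : Filter α → Set (Set ℕ) → Prop)
    (mono : ∀ {F S T}, Ind F S → T ⊆ S → Ind F T) (nb : ∀ {F S}, Ind F S → F.NeBot)
    (ch : ∀ {c : Set (Filter α)} {S}, IsChain (· ≤ ·) c → c.Nonempty → (∀ F ∈ c, Ind F S) →
      Ind (sInf c) S)
    {F0 : Filter α} (h0 : Ind F0 Set.univ) (K : Type) (hK : #K ≤ 𝔠) (Good : K → Filter α → Prop)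
    (step : ∀ k F S, F ≤ F0 → Ind F S → ¬ S.Countable →
      ∃ G ≤ F, ∃ r : Set (Set ℕ), r.Countable ∧ Ind G (S \ r) ∧ Good k G) :
    ∃ U : Ultrafilter α, (U : Filter α) ≤ F0 ∧ ∀ k, ∃ G, (U : Filter α) ≤ G ∧ Good k G := by
  let T : Type := (#K).ord.ToType
  obtain ⟨e⟩ : Nonempty (T ≃ K) := Cardinal.eq.1 (mk_ord_toType _)
  have hT : ∀ a : T, #(Iio a) < 𝔠 := fun a => lt_of_lt_of_le (by simpa [T] using mk_Iio_lt a) hK
  let H : (Set T) → (T → Filter α × Set (Set ℕ)) → Filter α :=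
    fun s p => sInf (insert F0 ((fun b => (p b).1) '' s))
  let R : (Set T) → (T → Filter α × Set (Set ℕ)) → Set (Set ℕ) :=
    fun s p => (⋃ b ∈ s, (p b).2)ᶜ
  have st : ∀ (a : T) (p : T → Filter α × Set (Set ℕ)), ∃ q : Filter α × Set (Set ℕ),
      q.2.Countable ∧ q.1 ≤ H (Iio a) p ∧ (Ind (H (Iio a) p) (R (Iio a) p) →
        ¬ (R (Iio a) p).Countable → Ind q.1 (R (Iio a) p \ q.2) ∧ Good (e a) q.1) := by
    intro a p
    by_cases h : Ind (H (Iio a) p) (R (Iio a) p) ∧ ¬ (R (Iio a) p).Countable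
    · obtain ⟨G, h1, r, h2, h3⟩ := step (e a) _ _ (sInf_le (mem_insert _ _)) h.1 h.2
      exact ⟨(G, r), h2, h1, fun _ _ => h3⟩
    · exact ⟨(_, ∅), countable_empty, le_rfl, fun h1 h2 => absurd ⟨h1, h2⟩ h⟩
  choose f hf using st
  classical
  let G : T → Filter α × Set (Set ℕ) := (wellFounded_lt (α := T)).fix fun a p =>
    f a fun b => if h : b < a then p b h else (⊤, ∅)
  have hG : ∀ a, (G a).2.Countable ∧ (G a).1 ≤ H (Iio a) G ∧ (Ind (H (Iio a) G) (R (Iio a) G) →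
      ¬ (R (Iio a) G).Countable → Ind (G a).1 (R (Iio a) G \ (G a).2) ∧ Good (e a) (G a).1) := by
    intro a
    have h1 : G a = f a fun b => if b < a then G b else (⊤, ∅) := by
      simp only [G]
      rw [WellFounded.fix_eq]
      simp
    have h2 := hf a fun b => if b < a then G b else (⊤, ∅)
    rw [← h1] at h2
    have e1 : H (Iio a) (fun b => if b < a then G b else (⊤, ∅)) = H (Iio a) G :=
      congrArg (fun t => sInf (insert F0 t)) (image_congr fun b hb => by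
        simp [show b < a from hb])
    have e2 : R (Iio a) (fun b => if b < a then G b else (⊤, ∅)) = R (Iio a) G :=
      congrArg compl (iUnion₂_congr fun b hb => by simp [show b < a from hb])
    rwa [e1, e2] at h2
  have hch : ∀ s, IsChain (· ≤ ·) (insert F0 ((fun b => (G b).1) '' s)) := by
    have h1 : ∀ b, (G b).1 ≤ F0 := fun b => (hG b).2.1.trans (sInf_le (mem_insert _ _))
    have h2 : ∀ b c, b < c → (G c).1 ≤ (G b).1 := fun b c h =>
      (hG c).2.1.trans (sInf_le (mem_insert_of_mem _ ⟨b, h, rfl⟩))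
    rintro s _ (rfl | ⟨b, -, rfl⟩) _ (rfl | ⟨c, -, rfl⟩) hne
    · exact absurd rfl hne
    · exact Or.inr (h1 c)
    · exact Or.inl (h1 b)
    · rcases lt_trichotomy b c with h | rfl | h
      · exact Or.inr (h2 b c h)
      · exact absurd rfl hne
      · exact Or.inl (h2 c b h)
  have hlim : ∀ s : Set T, IsLowerSet s → (∀ b ∈ s, Ind (G b).1 (R (Iio b) G \ (G b).2)) →
      Ind (H s G) (R s G) := by
    intro s hs h
    refine ch (hch s) (insert_nonempty _ _) ?_
    rintro _ (rfl | ⟨b, hb, rfl⟩)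
    · exact mono h0 (subset_univ _)
    · refine mono (h b hb) fun i hi => ⟨fun h1 => hi ?_, fun h1 => hi (mem_biUnion hb h1)⟩
      obtain ⟨c, hc, h2⟩ := mem_iUnion₂.1 h1
      exact mem_biUnion (hs (le_of_lt hc) hb) h2
  have hunc : ∀ a, ¬ (R (Iio a) G).Countable := by
    intro a hc
    have h1 : #(⋃ b ∈ Iio a, (G b).2 : Set (Set ℕ)) < 𝔠 := by
      refine lt_of_le_of_lt (mk_biUnion_le _ _) (mul_lt_of_lt aleph0_le_continuum (hT a) ?_)
      exact lt_of_le_of_lt (ciSup_le' fun b => (hG b).1.le_aleph0) aleph0_lt_continuum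
    have h2 := add_lt_of_lt aleph0_le_continuum h1
      (lt_of_le_of_lt hc.le_aleph0 aleph0_lt_continuum)
    rw [mk_sum_compl] at h2
    simp at h2
  have hall : ∀ a, Ind (G a).1 (R (Iio a) G \ (G a).2) ∧ Good (e a) (G a).1 := by
    intro a
    induction a using (wellFounded_lt (α := T)).induction with | _ a ih => ?_
    exact (hG a).2.2 (hlim _ (isLowerSet_Iio a) fun b hb => (ih b hb).1) (hunc a)
  have := nb (hlim Set.univ isLowerSet_univ fun b _ => (hall b).1)
  refine ⟨Ultrafilter.of (H Set.univ G), (Ultrafilter.of_le _).trans (sInf_le (mem_insert _ _)),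
    fun k => ⟨(G (e.symm k)).1, (Ultrafilter.of_le _).trans
      (sInf_le (mem_insert_of_mem _ ⟨_, trivial, rfl⟩)), ?_⟩⟩
  simpa using (hall (e.symm k)).2

variable {I : Type} {M : I → Set ℕ → ℕ → Set ℕ} {F : Filter ℕ} {S : Set I}

/-- points in the chosen cells -/
def cm (M : I → Set ℕ → ℕ → Set ℕ) (s : Finset I) (c : I → ℕ × Finset (Set ℕ)) : Set ℕ :=
  {x | ∀ i ∈ s, ∀ a ∈ (c i).2, x ∈ M i a (c i).1}

/-- independent linked matrix modulo a filter -/
def GI (M : I → Set ℕ → ℕ → Set ℕ) (F : Filter ℕ) (S : Set I) : Prop :=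
  ∀ (s : Finset I) (c : I → ℕ × Finset (Set ℕ)), ↑s ⊆ S → (∀ i, (c i).2.card ≤ (c i).1) →
    ∀ B ∈ F, (B ∩ cm M s c).Nonempty

lemma GI.ch {c : Set (Filter ℕ)} (hc : IsChain (· ≤ ·) c) (hne : c.Nonempty)
    (h : ∀ F ∈ c, GI M F S) : GI M (sInf c) S := by
  intro s x hs hx B hB
  rw [sInf_eq_iInf, mem_biInf_of_directed (f := fun a => a) (fun a ha b hb => by
    rcases hc.total ha hb with h | h
    · exact ⟨a, ha, le_rfl, h⟩
    · exact ⟨b, hb, h, le_rfl⟩) hne] at hB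
  obtain ⟨F, hF, hB⟩ := hB
  exact h F hF s x hs hx B hB

lemma GI.add (h : GI M F S) {s : Finset I} (hs : ↑s ⊆ S) {x : I → ℕ × Finset (Set ℕ)}
    (hx : ∀ i, (x i).2.card ≤ (x i).1) : GI M (F ⊓ 𝓟 (cm M s x)) (S \ s) := by
  classical
  intro t y ht hy D hD
  rw [mem_inf_principal] at hD
  obtain ⟨n, h1, h2⟩ := h (s ∪ t) (fun i => if i ∈ s then x i else y i)
    (by rw [Finset.coe_union]; exact union_subset hs (ht.trans diff_subset))
    (fun i => by split_ifs; exacts [hx i, hy i]) _ hD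
  refine ⟨n, h1 fun i hi => ?_, fun i hi => ?_⟩
  · simpa [hi] using h2 i (Finset.mem_union_left _ hi)
  · have : i ∉ s := (ht hi).2
    simpa [this] using h2 i (Finset.mem_union_right _ hi)

lemma GI.max (h : GI M F S) : ∃ G ≤ F, GI M G S ∧ ∀ B, B ∉ G → ∃ (s : Finset I)
    (x : I → ℕ × Finset (Set ℕ)), ↑s ⊆ S ∧ (∀ i, (x i).2.card ≤ (x i).1) ∧ (Bᶜ ∪ (cm M s x)ᶜ) ∈ G := by
  obtain ⟨G, hGF, hG⟩ := zorn_le_nonempty₀ (α := (Filter ℕ)ᵒᵈ) {G | GI M G S}
    (fun c hc hch y hy => ⟨sInf (α := Filter ℕ) c, GI.ch hch.symm ⟨y, hy⟩ hc,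
      fun z hz => sInf_le (α := Filter ℕ) hz⟩) F h
  refine ⟨G, hGF, hG.1, fun B hB => ?_⟩
  by_contra hc
  refine hB (le_principal_iff.1 (le_trans (α := Filter ℕ) (hG.2 (y := (min (α := Filter ℕ) G (𝓟 B)))
    ?_ (inf_le_left (α := Filter ℕ))) (inf_le_right (α := Filter ℕ))))
  intro s x hs hx D hD
  by_contra hn
  refine hc ⟨s, x, hs, hx, mem_of_superset (mem_inf_principal.1 hD) fun n hn' => ?_⟩
  exact or_iff_not_imp_left.2 fun a h => hn ⟨n, hn' (not_not.1 a), h⟩

lemma mat : ∃ M : Set ℕ → Set ℕ → ℕ → Set ℕ, GI M cofinite Set.univ ∧ (∀ i a, Monotone (M i a)) ∧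
    ∀ i n (σ : Finset (Set ℕ)), n < σ.card → {x | ∀ a ∈ σ, x ∈ M i a n}.Finite := by
  classical
  let e : ℕ × Finset (Finset ℕ × Finset ℕ) ≃ ℕ := Denumerable.eqv _
  let tr : Set ℕ → ℕ → Finset ℕ := fun X n => (Finset.range n).filter (· ∈ X)
  have h1 : ∀ s : Finset (Set ℕ), ∀ᶠ n in cofinite, InjOn (tr · n) s := fun s => by
    refine (eventually_all_finset s).2 fun X _ => (eventually_all_finset s).2 fun Y _ => ?_
    by_cases hXY : X = Y
    · exact Eventually.of_forall fun _ _ => hXY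
    · obtain ⟨a, ha⟩ : ∃ a, ¬ (a ∈ X ↔ a ∈ Y) := not_forall.1 fun h => hXY (Set.ext h)
      rw [Nat.cofinite_eq_atTop]
      filter_upwards [eventually_gt_atTop a] with n hn he
      have := congrArg (a ∈ ·) he
      exact absurd (by simpa [tr, hn] using this) ha
  refine ⟨fun Y X n => e.symm ⁻¹' {p | p.2 ⊆ (Finset.range p.1).powerset ×ˢ (Finset.range
    p.1).powerset ∧ (tr Y p.1, tr X p.1) ∈ p.2 ∧ (p.2.filter (·.1 = tr Y p.1)).card ≤ n},
      fun s c _ hc B hB => ?_, fun i a n m h x hx => ⟨hx.1, hx.2.1, hx.2.2.trans h⟩,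
        fun i n σ h => ?_⟩
  · let g : ℕ → ℕ := fun n => e (n, s.biUnion fun i => (c i).2.image fun a => (tr i n, tr a n))
    have hg : Function.Injective g := fun a b hab => congrArg Prod.fst (e.injective hab)
    obtain ⟨n, h2, h3⟩ := ((h1 s).and (hg.tendsto_cofinite.eventually hB)).exists
    refine ⟨g n, h3, fun X hX a ha => ?_⟩
    simp only [g, mem_preimage, Equiv.symm_apply_apply, mem_ofPred_eq]
    refine ⟨fun p hp => ?_, by simpa using ⟨X, hX, a, ha, rfl, rfl⟩, (Finset.card_le_card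
      fun p hp => ?_).trans (Finset.card_image_le (f := fun a => (tr X n, tr a n))|>.trans (hc X))⟩
    · simp only [Finset.mem_biUnion, Finset.mem_image] at hp
      obtain ⟨i, -, a, -, rfl⟩ := hp
      simp [tr]
    · simp only [Finset.mem_biUnion, Finset.mem_image, Finset.mem_filter] at hp ⊢
      obtain ⟨⟨i, hi, a, b, rfl⟩, d⟩ := hp
      cases h2 hi hX d
      exact ⟨a, b, rfl⟩
  · obtain ⟨a, ha⟩ := Finset.card_pos.1 (n.zero_le.trans_lt h)
    refine .subset (.preimage e.symm.injective.injOn (((eventually_cofinite.1 (h1 σ)).biUnion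
      fun k _ => (((Finset.range k).powerset ×ˢ (Finset.range k).powerset).powerset.image
        (Prod.mk k)).finite_toSet))) fun x hx => mem_biUnion (x := (e.symm x).1) (fun k => ?_)
          (Finset.mem_image.2 ⟨_, Finset.mem_powerset.2 (hx a ha).1, rfl⟩)
    exact h.not_ge ((Finset.card_le_card_of_injOn (fun b => (tr i (e.symm x).1, tr b (e.symm x).1))
      (fun b hb => by simpa using (hx b hb).2.1) fun b hb d hd e => k hb hd
        (congrArg Prod.snd e)).trans (hx a ha).2.2)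

theorem wp : ∃ p : (Set ℕ → Bool) → Ultrafilter ℕ, Function.Injective p ∧ ∀ x,
    (p x : Filter ℕ) ≤ cofinite ∧ ∀ r : ℕ → Ultrafilter ℕ, ∃ V ∈ p x, ∀ n,
      (r n : Filter ℕ) ≤ cofinite → r n ≠ p x → V ∉ r n := by
  classical
  obtain ⟨M, m1, m2, m3⟩ := mat
  obtain ⟨e⟩ : Nonempty (Set ℕ ⊕ Set ℕ ≃ Set ℕ) := Cardinal.eq.1 (by simp)
  have h0 : ∀ x : Set ℕ → Bool, GI (fun i => M (e (.inr i))) (cofinite ⊓ ⨅ i, 𝓟 (M (e (.inl i))
      (cond (x i) ∅ Set.univ) 1)) Set.univ := fun x s c _ hc B hB => by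
    obtain ⟨B, b1, D, d1, rfl⟩ := mem_inf_iff.1 hB
    obtain ⟨t, ht⟩ := (mem_iInf_finite _).1 d1
    rw [iInf_principal_finset, mem_principal] at ht
    obtain ⟨n, n1, n2⟩ := m1 ((t.disjSum s).map e.toEmbedding) (Sum.elim (fun i =>
      (1, {cond (x i) ∅ Set.univ})) c ∘ e.symm) (subset_univ _) (e.forall_congr_right.1 (by
        rintro (i | i) <;> simp [hc])) B b1
    exact ⟨n, ⟨n1, ht (mem_iInter₂.2 fun i hi => by simpa using n2 (e (.inl i)) (by simpa))⟩,
      fun i hi => by simpa using n2 (e (.inr i)) (by simpa)⟩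
  choose p p1 p2 using fun x => kunen (GI fun i => M (e (.inr i)))
    (fun h t s x hs => h s x (hs.trans t))
    (fun h => ⟨fun e => (h ∅ (fun _ => (0, ∅)) (by simp) (by simp) ∅ (e ▸ mem_bot)).ne_empty
      (empty_inter _)⟩) GI.ch (h0 x) (ℕ → Set ℕ) (by simp) (fun C G => (∃ n, (C n)ᶜ ∈ G) ∨
        ∃ i, ∀ a, {x | ∀ n, x ∉ C n → x ∈ M i a n} ∈ G) (by
    intro C F S _ h hS
    obtain ⟨G, g1, g2, g3⟩ := h.max
    by_cases k : ∀ n, C n ∈ G
    · obtain ⟨i, hi⟩ := nonempty_iff_ne_empty.2 fun e : S = ∅ => hS (e ▸ countable_empty)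
      refine ⟨G ⊓ ⨅ a, 𝓟 {x | ∀ n, x ∉ C n → x ∈ M (e (.inr i)) a n}, inf_le_left.trans g1, {i},
        countable_singleton i, fun s c hs hc B hB => ?_, .inr ⟨_, fun a => mem_inf_of_right
          (mem_iInf_of_mem a (mem_principal_self _))⟩⟩
      obtain ⟨B, b1, D, d1, rfl⟩ := mem_inf_iff.1 hB
      obtain ⟨t, ht⟩ := (mem_iInf_finite _).1 d1
      rw [iInf_principal_finset, mem_principal] at ht
      obtain ⟨n, ⟨n1, n2⟩, n3⟩ := g2 (insert i s) (Function.update c i (t.card, t))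
        (by rw [Finset.coe_insert]; exact insert_subset hi (hs.trans diff_subset))
        (fun j => by by_cases a : j = i <;> simp [a, hc]) _
        (inter_mem b1 ((biInter_mem (finite_Iio t.card)).2 fun n _ => k n))
      refine ⟨n, ⟨n1, ht (mem_iInter₂.2 fun a ha m hm => m2 _ _
        (not_lt.1 fun k => hm (mem_iInter₂.1 n2 m k)) ?_)⟩, fun j hj => ?_⟩
      · simpa using n3 i (by simp) a (by simpa)
      · simpa [show j ≠ i from (hs hj).2] using n3 j (by simp [hj])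
    · obtain ⟨n, hn⟩ := not_forall.1 k
      obtain ⟨s, c, s1, s2, s3⟩ := g3 _ hn
      exact ⟨_, inf_le_left.trans g1, s, s.countable_toSet, g2.add s1 s2, .inl ⟨n,
        mem_inf_principal.2 (mem_of_superset s3 fun x a b => a.resolve_right fun k => k b)⟩⟩)
  have p3 := fun x => (p1 x).trans inf_le_left
  have p4 : ∀ x i, M (e (.inl i)) (cond (x i) ∅ Set.univ) 1 ∈ p x := fun x i =>
    p1 x (mem_inf_of_right (mem_iInf_of_mem i (mem_principal_self _)))
  refine ⟨p, fun x y h => funext fun i => not_not.1 fun k => ?_, fun x => ⟨p3 x, fun r => ?_⟩⟩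
  · refine Ultrafilter.compl_mem_iff_notMem.1 (p3 y (m3 (e (.inl i)) 1 {∅, Set.univ}
      (by simp [Finset.card_pair empty_ne_univ])).compl_mem_cofinite)
        (mem_of_superset (inter_mem (h ▸ p4 x i) (p4 y i)) fun n hn => ?_)
    cases a : x i <;> cases b : y i <;> simp_all
  · have : ∀ n, ∃ C ∈ p x, r n ≠ p x → C ∉ r n := fun n => by
      by_contra! k
      exact (k _ univ_mem).1 (Ultrafilter.eq_of_le fun C h => (k C h).2)
    choose C c1 c2 using this
    obtain ⟨G, g, ⟨n, h⟩ | ⟨i, h⟩⟩ := p2 x C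
    · exact (Ultrafilter.compl_mem_iff_notMem.1 (g h) (c1 n)).elim
    by_contra! k
    choose f f1 f2 f3 using fun a => k _ (g (h a))
    obtain ⟨n, hn⟩ : ∃ n, (f ⁻¹' {n}).Infinite := by
      by_contra! k
      have : Uncountable (Set ℕ) := aleph0_lt_mk_iff.1 (by simpa using aleph0_lt_continuum)
      exact not_countable_univ (α := Set ℕ) ((countable_iUnion fun n => (k n).countable).mono
        fun a _ => mem_iUnion.2 ⟨f a, rfl⟩)
    obtain ⟨σ, s1, s2⟩ := hn.exists_subset_card_eq (n + 1)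
    obtain ⟨a, ha⟩ := hn.nonempty
    cases ha
    exact c2 _ (f2 a) (mem_of_superset (inter_mem (f1 a (m3 i (f a) σ (by omega)).compl_mem_cofinite)
      ((eventually_all_finset σ (p := fun b x => ∀ n, x ∉ C n → x ∈ M i b n)).2 fun b hb =>
        show _ ∈ r (f a) from s1 hb ▸ f3 b))
        fun y hy => not_not.1 fun k => hy.1 fun b hb => hy.2 b hb _ k)

end Pool.Agent.H.MP_7279d0
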